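import Mathlib
import Pool.Agent.K6.H97.TardifWalk

/-! # `C_{2d+1}[K_m]` is not a counterexample to `H'(n)` for `(2d-1)(n-2m) ≤ m+1`

Let `d ≥ 2`, `G = C_{2d+1}[K_m]` and `n = 2m + k` with `k ≥ 1`. If `(2d-1) k ≤ m+1` and `χ(G) > n`,
then `χ(K_n^G) = n`.

Method. Let `V_0, …, V_{2d}` be the fibres. A fibre `V_i` of a map `f : V(G) → [n]` is improper if it
touches an edge on which `f` is constant; the colour `e` of such an edge is then avoided on `V_{i-1}`,
`V_i`, `V_{i+1}` by all neighbours of `f` in `K_n^G`. If `V_0` or `V_1` is improper, `f` gets the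
colour `e`. Otherwise `f` gets its own colour at a position `p(f)` of the `2m`-clique `V_0 ∪ V_1`, and
one needs `p(f) ≠ p(g)` for adjacent `f`, `g`. Starting from the colour `e` of the first improper fibre
`V_j`, one walks through `V_{j-1}, …, V_1`. At every fibre the colour is transported to one of
`n - m = m + k` colours, by *eliminating the positions of the clique* (`kap`): a colour not used on a
clique `a_1, …, a_m` is transported to the complement of `m` fixed colours, and the images of two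
different colours of adjacent maps are different (`kap_ne`). `m` of these `m + k` colours are the names
of the positions of the fibre, and one goes on with the colour of this position; for the other `k` the
walk stops. This needs `m + (2d-1) k` positions. One of them is saved in the last class (only `V_{2d}`
is improper): then the fibres `V_1` and `V_{2d-1}` have a common colour, since the colours of `V_i` and
`V_{i+2}` differ in at most `k` places, and this colour can be used to avoid one of the tokens. -/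

namespace Pool.Agent.Results.MP_418764_co.BelowSlopeTwoDMinusOne

open SimpleGraph Pool.Agent.K6.H97.Tardif

/-- The lexicographic product `C[K_m]`. -/
def lexBlowup {V : Type*} (C : SimpleGraph V) (m : ℕ) : SimpleGraph (V × Fin m) where
  Adj u v := C.Adj u.1 v.1 ∨ (u.1 = v.1 ∧ u.2 ≠ v.2)
  symm := ⟨by
    rintro u v (h | ⟨h1, h2⟩)
    · exact Or.inl h.symm
    · exact Or.inr ⟨h1.symm, h2.symm⟩⟩
  loopless := ⟨by
    rintro u (h | ⟨_, h2⟩)
    · exact C.loopless.irrefl _ h
    · exact h2 rfl⟩

/-- The exponential graph `K_n^G`: the vertices are all maps `V(G) → [n]`, and `f`, `g` are adjacent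
iff `f x ≠ g y` for every edge `xy` of `G`. (For `χ(G) > n` there are no loops.) -/
def expGraph {V : Type*} (G : SimpleGraph V) (n : ℕ) : SimpleGraph (V → Fin n) where
  Adj f g := f ≠ g ∧ ∀ x y, G.Adj x y → f x ≠ g y
  symm := ⟨by
    rintro f g ⟨h1, h2⟩
    exact ⟨h1.symm, fun x y hxy h => h2 y x hxy.symm h.symm⟩⟩
  loopless := ⟨fun f h => h.1 rfl⟩

theorem cyc_adj {d i j : ℕ} (hd : 1 ≤ d) (hi : i < 2 * d + 1) (hj : j < 2 * d + 1)
    (h : nb (2 * d) i j) (hne : i ≠ j) :
    (cycleGraph (2 * d + 1)).Adj ⟨i, hi⟩ ⟨j, hj⟩ := by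
  rw [cycleGraph_adj']
  simp only [Fin.sub_def]
  rcases h with ⟨_, _, h | h | h | ⟨h, h'⟩ | ⟨h, h'⟩⟩
  · exact absurd h hne
  · right
    subst h
    have : 2 * d + 1 - i + (i + 1) = 1 + (2 * d + 1) := by omega
    rw [this, Nat.add_mod_right, Nat.mod_eq_of_lt (by omega)]
  · left
    subst h
    have : 2 * d + 1 - j + (j + 1) = 1 + (2 * d + 1) := by omega
    rw [this, Nat.add_mod_right, Nat.mod_eq_of_lt (by omega)]
  · right
    subst h h'
    have : 2 * d + 1 - 2 * d + 0 = 1 := by omega
    rw [this, Nat.mod_eq_of_lt (by omega)]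
  · left
    subst h h'
    have : 2 * d + 1 - 2 * d + 0 = 1 := by omega
    rw [this, Nat.mod_eq_of_lt (by omega)]

/-- `e` is the colour of an edge touching the fibre `i` on which `f` is constant. -/
def Blk {d m n : ℕ} (f : Fin (2 * d + 1) × Fin m → Fin n) (i : ℕ) (e : Fin n) : Prop :=
  ∃ (hi : i < 2 * d + 1) (x : Fin m) (w : Fin (2 * d + 1) × Fin m),
    (lexBlowup (cycleGraph (2 * d + 1)) m).Adj (⟨i, hi⟩, x) w ∧ f (⟨i, hi⟩, x) = e ∧ f w = e

open Classical in
/-- The system of all maps. -/
noncomputable def sys (d m n : ℕ) (hd : 1 ≤ d)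
    (hG : ¬ (lexBlowup (cycleGraph (2 * d + 1)) m).Colorable n) :
    Sys (Fin (2 * d + 1) × Fin m → Fin n)
      (fun f g => ∀ x y, (lexBlowup (cycleGraph (2 * d + 1)) m).Adj x y → f x ≠ g y) (2 * d) m n where
  a f i x := if h : i < 2 * d + 1 ∧ x < m then (f (⟨i, h.1⟩, ⟨x, h.2⟩)).val else 0
  st f i := if h : ∃ e, Blk f i e then some (h.choose).val else none
  symm f g h x y hxy he := h y x hxy.symm he.symm
  a_lt f i x hi hx := by
    rw [dif_pos ⟨by omega, hx⟩]
    exact (f _).isLt
  cross f g hfg i j hij x hx y hy hne := by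
    have hi := hij.1
    have hj := hij.2.1
    rw [dif_pos ⟨by omega, hx⟩, dif_pos ⟨by omega, hy⟩]
    intro he
    refine hfg _ _ ?_ (Fin.ext he)
    by_cases h : i = j
    · subst h
      right
      exact ⟨rfl, fun h => hne.elim (fun h' => h' rfl) (fun h' => h' (by simpa using h))⟩
    · exact Or.inl (cyc_adj hd _ _ hij h)
  noneP f i hf j hij x hx y hy hne := by
    have hi := hij.1
    have hj := hij.2.1
    rw [dif_pos ⟨by omega, hx⟩, dif_pos ⟨by omega, hy⟩]
    intro he
    split_ifs at hf with hex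
    refine hex ⟨f (⟨i, by omega⟩, ⟨x, hx⟩), by omega, ⟨x, hx⟩, (⟨j, by omega⟩, ⟨y, hy⟩), ?_, rfl,
      (Fin.ext he).symm⟩
    by_cases h : i = j
    · subst h
      right
      exact ⟨rfl, fun h => hne.elim (fun h' => h' rfl) (fun h' => h' (by simpa using h))⟩
    · exact Or.inl (cyc_adj hd _ _ hij h)
  some_mem f i e hi hf := by
    split_ifs at hf with hex
    obtain ⟨h1, x, w, -, h2, -⟩ := hex.choose_spec
    refine ⟨x.val, x.isLt, ?_⟩
    rw [dif_pos ⟨h1, x.isLt⟩]
    simp only [Option.some.injEq] at hf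
    rw [← hf]
    exact congrArg Fin.val h2
  someP f g hfg i e hf j hij y hy := by
    have hi := hij.1
    have hj := hij.2.1
    split_ifs at hf with hex
    obtain ⟨h1, x, w, hadj, h2, h3⟩ := hex.choose_spec
    simp only [Option.some.injEq] at hf
    rw [dif_pos ⟨by omega, hy⟩, ← hf]
    intro he
    have he' := Fin.ext he
    by_cases h : i = j ∧ x.val = y
    · obtain ⟨h4, h5⟩ := h
      subst h4 h5
      exact hfg w _ hadj.symm (h3.trans he'.symm)
    · refine hfg (⟨i, h1⟩, x) (⟨j, by omega⟩, ⟨y, hy⟩) ?_ (h2.trans he'.symm)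
      by_cases h' : i = j
      · subst h'
        right
        refine ⟨rfl, fun h'' => h ⟨rfl, by simpa using congrArg Fin.val h''⟩⟩
      · exact Or.inl (cyc_adj hd _ _ hij h')
  ex f := by
    by_contra hcon
    push Not at hcon
    refine hG ⟨Coloring.mk f ?_⟩
    intro u w huw he
    have h1 := hcon u.1.val (by omega)
    split_ifs at h1 with hex
    exact hex ⟨f u, u.1.isLt, u.2, w, huw, rfl, he.symm⟩

theorem exp_colorable (d m k : ℕ) (hd : 2 ≤ d) (hk : 1 ≤ k) (h : (2 * d - 1) * k ≤ m + 1)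
    (hG : ¬ (lexBlowup (cycleGraph (2 * d + 1)) m).Colorable (2 * m + k)) :
    (expGraph (lexBlowup (cycleGraph (2 * d + 1)) m) (2 * m + k)).Colorable (2 * m + k) := by
  obtain ⟨F, hF, hne⟩ := (sys d m (2 * m + k) (by omega) hG).exists_colouring rfl rfl hd hk h
  refine ⟨Coloring.mk (fun f => ⟨F f, hF f⟩) ?_⟩
  intro f g hfg he
  exact hne f g hfg.2 (congrArg Fin.val he)

theorem le_chromatic {V : Type*} (G : SimpleGraph V) [Nonempty V] (n : ℕ) :
    (n : ℕ∞) ≤ (expGraph G n).chromaticNumber := by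
  have h : (completeGraph (Fin n)) ↪g (expGraph G n) := by
    refine ⟨⟨fun i _ => i, fun i j h => congrFun h (Classical.arbitrary V)⟩, ?_⟩
    intro i j
    simp only [completeGraph, top_adj]
    constructor
    · rintro ⟨h, -⟩ rfl
      exact h rfl
    · intro hij
      exact ⟨fun h => hij (congrFun h (Classical.arbitrary V)), fun _ _ _ => hij⟩
  have h2 := chromaticNumber_mono_of_hom h.toHom
  rwa [completeGraph_eq_top, chromaticNumber_top, Fintype.card_fin] at h2

/-- **Main result.** Let `d ≥ 2`, `2m < n` and `(2d-1)(n-2m) ≤ m+1`. If `χ(C_{2d+1}[K_m]) > n` then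
`χ(K_n^{C_{2d+1}[K_m]}) = n`: so `C_{2d+1}[K_m]` is not a counterexample to `H'(n)`. -/
theorem result (d m n : ℕ) (hd : 2 ≤ d) (hn : 2 * m < n) (h : (2 * d - 1) * (n - 2 * m) ≤ m + 1)
    (hχ : (n : ℕ∞) < (lexBlowup (cycleGraph (2 * d + 1)) m).chromaticNumber) :
    (expGraph (lexBlowup (cycleGraph (2 * d + 1)) m) n).chromaticNumber = n := by
  obtain ⟨k, rfl⟩ : ∃ k, n = 2 * m + k := ⟨n - 2 * m, by omega⟩
  have hk : 1 ≤ k := by omega
  have hk' : 2 * m + k - 2 * m = k := by omega
  rw [hk'] at h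
  have hm : 1 ≤ m := by
    have : 3 * 1 ≤ (2 * d - 1) * k := Nat.mul_le_mul (by omega) hk
    omega
  have hG : ¬ (lexBlowup (cycleGraph (2 * d + 1)) m).Colorable (2 * m + k) := by
    intro hc
    exact absurd hc.chromaticNumber_le (not_le.2 hχ)
  have : Nonempty (Fin (2 * d + 1) × Fin m) := ⟨(⟨0, by omega⟩, ⟨0, by omega⟩)⟩
  exact le_antisymm (exp_colorable d m k hd hk h hG).chromaticNumber_le (le_chromatic _ _)

end Pool.Agent.Results.MP_418764_co.BelowSlopeTwoDMinusOne
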